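import Mathlib
import Pool.Agent.N109.T3.Sc
import Pool.Agent.N991.MK.Gauss
import Pool.Agent.N991.MK.L1

/-!
# Convolutions of Gaussians with radial polynomials of degree four
-/

open MeasureTheory Filter
open Pool.Agent.N109.T3 (gs cvR)
open Pool.Agent.N991.MK (nE)

namespace Pool.Agent.N453.T3

noncomputable section

section one

variable {s : ℝ}

lemma gi (hs : 0 < s) (k : ℕ) : Integrable fun t : ℝ => t ^ k * Real.exp (-s * t ^ 2) := by
  have h := integrable_rpow_mul_exp_neg_mul_sq hs (s := (k : ℝ))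
    (lt_of_lt_of_le (by norm_num) (Nat.cast_nonneg k))
  simpa only [Real.rpow_natCast] using h

lemma gd (k : ℕ) (t : ℝ) : HasDerivAt (fun t : ℝ => t ^ k * Real.exp (-s * t ^ 2))
    ((k * t ^ (k - 1)) * Real.exp (-s * t ^ 2) + t ^ k * (Real.exp (-s * t ^ 2) * (-s * (2 * t)))) t := by
  have h1 : HasDerivAt (fun t : ℝ => -s * t ^ 2) (-s * (2 * t)) t := by
    have := (hasDerivAt_pow 2 t).const_mul (-s)
    simpa using this
  exact (hasDerivAt_pow k t).mul h1.exp

lemma gm_one (hs : 0 < s) : ∫ t : ℝ, t ^ 1 * Real.exp (-s * t ^ 2) = 0 := by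
  have h := integral_eq_zero_of_hasDerivAt_of_integrable (gd (s := s) 0) ?_ (gi hs 0)
  · have e : ∀ t : ℝ, (((0 : ℕ) : ℝ) * t ^ (0 - 1)) * Real.exp (-s * t ^ 2) +
        t ^ 0 * (Real.exp (-s * t ^ 2) * (-s * (2 * t))) = (-(2 * s)) *
          (t ^ 1 * Real.exp (-s * t ^ 2)) := by
      intro t
      push_cast
      ring
    simp only [e] at h
    rw [integral_const_mul] at h
    rcases mul_eq_zero.1 h with h | h
    · linarith
    · exact h
  · refine ((gi hs 1).const_mul (-(2 * s))).congr (Eventually.of_forall fun t => ?_)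
    beta_reduce
    push_cast
    ring

lemma gm_succ (hs : 0 < s) (k : ℕ) : ∫ t : ℝ, t ^ (k + 2) * Real.exp (-s * t ^ 2) =
    (k + 1) * (1 / (2 * s)) * ∫ t : ℝ, t ^ k * Real.exp (-s * t ^ 2) := by
  have e : ∀ t : ℝ, (((k + 1 : ℕ) : ℝ) * t ^ (k + 1 - 1)) * Real.exp (-s * t ^ 2) +
      t ^ (k + 1) * (Real.exp (-s * t ^ 2) * (-s * (2 * t))) =
        (k + 1) * (t ^ k * Real.exp (-s * t ^ 2)) -
          (2 * s) * (t ^ (k + 2) * Real.exp (-s * t ^ 2)) := by
    intro t
    rw [Nat.add_sub_cancel]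
    push_cast
    ring
  have h := integral_eq_zero_of_hasDerivAt_of_integrable (gd (s := s) (k + 1)) (by
    simp only [e]
    exact ((gi hs k).const_mul _).sub ((gi hs (k + 2)).const_mul _)) (gi hs (k + 1))
  simp only [e] at h
  rw [integral_sub ((gi hs k).const_mul _) ((gi hs (k + 2)).const_mul _), integral_const_mul,
    integral_const_mul] at h
  obtain ⟨A, hA⟩ : ∃ A, A = ∫ t : ℝ, t ^ k * Real.exp (-s * t ^ 2) := ⟨_, rfl⟩
  obtain ⟨D, hD⟩ : ∃ D, D = ∫ t : ℝ, t ^ (k + 2) * Real.exp (-s * t ^ 2) := ⟨_, rfl⟩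
  rw [← hA, ← hD] at h ⊢
  field_simp
  linarith

lemma gm_two (hs : 0 < s) : ∫ t : ℝ, t ^ 2 * Real.exp (-s * t ^ 2) =
    1 / (2 * s) * ∫ t : ℝ, Real.exp (-s * t ^ 2) := by
  have h := gm_succ hs 0
  simpa using h

lemma gm_three (hs : 0 < s) : ∫ t : ℝ, t ^ 3 * Real.exp (-s * t ^ 2) = 0 := by
  have h := gm_succ hs 1
  rw [gm_one hs, mul_zero] at h
  exact h

lemma gm_four (hs : 0 < s) : ∫ t : ℝ, t ^ 4 * Real.exp (-s * t ^ 2) =
    3 * (1 / (2 * s)) ^ 2 * ∫ t : ℝ, Real.exp (-s * t ^ 2) := by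
  have h := gm_succ hs 2
  rw [gm_two hs] at h
  rw [h]
  push_cast
  ring

lemma gi0 (hs : 0 < s) : Integrable fun t : ℝ => Real.exp (-s * t ^ 2) :=
  integrable_exp_neg_mul_sq hs

lemma gj2 (hs : 0 < s) (w : ℝ) : Integrable fun t : ℝ => (t + w) ^ 2 * Real.exp (-s * t ^ 2) := by
  refine (((gi hs 2).add ((gi hs 1).const_mul (2 * w))).add ((gi hs 0).const_mul (w ^ 2))).congr
    (Eventually.of_forall fun t => ?_)
  simp only [Pi.add_apply]
  ring

lemma gj4 (hs : 0 < s) (w : ℝ) : Integrable fun t : ℝ => (t + w) ^ 4 * Real.exp (-s * t ^ 2) := by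
  refine (((((gi hs 4).add ((gi hs 3).const_mul (4 * w))).add
    ((gi hs 2).const_mul (6 * w ^ 2))).add ((gi hs 1).const_mul (4 * w ^ 3))).add
    ((gi hs 0).const_mul (w ^ 4))).congr (Eventually.of_forall fun t => ?_)
  simp only [Pi.add_apply]
  ring

lemma gk2 (hs : 0 < s) (w : ℝ) : ∫ t : ℝ, (t + w) ^ 2 * Real.exp (-s * t ^ 2) =
    (w ^ 2 + 1 / (2 * s)) * ∫ t : ℝ, Real.exp (-s * t ^ 2) := by
  have e : ∀ t : ℝ, (t + w) ^ 2 * Real.exp (-s * t ^ 2) =
      t ^ 2 * Real.exp (-s * t ^ 2) + (2 * w) * (t ^ 1 * Real.exp (-s * t ^ 2)) +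
        w ^ 2 * Real.exp (-s * t ^ 2) := fun t => by ring
  simp only [e]
  have j1 : Integrable fun t : ℝ => t ^ 2 * Real.exp (-s * t ^ 2) +
      (2 * w) * (t ^ 1 * Real.exp (-s * t ^ 2)) := (gi hs 2).add ((gi hs 1).const_mul (2 * w))
  rw [integral_add j1 ((gi0 hs).const_mul _),
    integral_add (gi hs 2) ((gi hs 1).const_mul (2 * w)), integral_const_mul, integral_const_mul,
    gm_one hs, gm_two hs]
  ring

lemma gk4 (hs : 0 < s) (w : ℝ) : ∫ t : ℝ, (t + w) ^ 4 * Real.exp (-s * t ^ 2) =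
    (w ^ 4 + 6 * (1 / (2 * s)) * w ^ 2 + 3 * (1 / (2 * s)) ^ 2) *
      ∫ t : ℝ, Real.exp (-s * t ^ 2) := by
  have e : ∀ t : ℝ, (t + w) ^ 4 * Real.exp (-s * t ^ 2) =
      t ^ 4 * Real.exp (-s * t ^ 2) + (4 * w) * (t ^ 3 * Real.exp (-s * t ^ 2)) +
        (6 * w ^ 2) * (t ^ 2 * Real.exp (-s * t ^ 2)) +
        (4 * w ^ 3) * (t ^ 1 * Real.exp (-s * t ^ 2)) + w ^ 4 * Real.exp (-s * t ^ 2) :=
    fun t => by ring
  simp only [e]
  have j1 : Integrable fun t : ℝ => t ^ 4 * Real.exp (-s * t ^ 2) +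
      (4 * w) * (t ^ 3 * Real.exp (-s * t ^ 2)) := (gi hs 4).add ((gi hs 3).const_mul (4 * w))
  have j2 : Integrable fun t : ℝ => t ^ 4 * Real.exp (-s * t ^ 2) +
      (4 * w) * (t ^ 3 * Real.exp (-s * t ^ 2)) +
      (6 * w ^ 2) * (t ^ 2 * Real.exp (-s * t ^ 2)) := j1.add ((gi hs 2).const_mul (6 * w ^ 2))
  have j3 : Integrable fun t : ℝ => t ^ 4 * Real.exp (-s * t ^ 2) +
      (4 * w) * (t ^ 3 * Real.exp (-s * t ^ 2)) +
      (6 * w ^ 2) * (t ^ 2 * Real.exp (-s * t ^ 2)) +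
      (4 * w ^ 3) * (t ^ 1 * Real.exp (-s * t ^ 2)) := j2.add ((gi hs 1).const_mul (4 * w ^ 3))
  rw [integral_add j3 ((gi0 hs).const_mul _), integral_add j2 ((gi hs 1).const_mul _),
    integral_add j1 ((gi hs 2).const_mul _), integral_add (gi hs 4) ((gi hs 3).const_mul _),
    integral_const_mul, integral_const_mul, integral_const_mul, integral_const_mul,
    gm_one hs, gm_two hs, gm_three hs, gm_four hs]
  ring

end one

variable {n : ℕ}

/-- `exp (- a |x|²)` -/
def ga (a : ℝ) (x : Fin n → ℝ) : ℝ := Real.exp (-(a * nE x ^ 2))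

lemma ga_pos (a : ℝ) (x : Fin n → ℝ) : 0 < ga a x := Real.exp_pos _

lemma ga_prod (a : ℝ) (x : Fin n → ℝ) : ga a x = ∏ b, Real.exp (-a * x b ^ 2) := by
  unfold ga
  rw [← Real.exp_sum, Pool.Agent.N991.MK.nE_sq, ← Finset.mul_sum, neg_mul]

/-- the integrals of the Gaussian -/
def Ig (n : ℕ) (s : ℝ) : ℝ := ∫ x : Fin n → ℝ, ga s x

lemma Ig_eq (s : ℝ) : Ig n s = (∫ t : ℝ, Real.exp (-s * t ^ 2)) ^ n := by
  unfold Ig
  simp only [ga_prod]
  rw [integral_fintype_prod_volume_eq_prod (fun (_ : Fin n) (t : ℝ) => Real.exp (-s * t ^ 2))]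
  simp

lemma Ig_pos {s : ℝ} (hs : 0 < s) : 0 < Ig n s := by
  rw [Ig_eq, integral_gaussian]
  positivity

section two

variable {s : ℝ} (v : Fin n → ℝ)

/-- the factors -/
def fac (s : ℝ) (v : Fin n → ℝ) (a b i : Fin n) (t : ℝ) : ℝ :=
  (if i = a then (t + v i) ^ 2 else 1) * (if i = b then (t + v i) ^ 2 else 1) *
    Real.exp (-s * t ^ 2)

lemma fac_prod (a b : Fin n) (y : Fin n → ℝ) :
    ∏ i, fac s v a b i (y i) = (y a + v a) ^ 2 * (y b + v b) ^ 2 * ga s y := by
  unfold fac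
  rw [Finset.prod_mul_distrib, Finset.prod_mul_distrib, ga_prod]
  simp

lemma fac_int (hs : 0 < s) (a b i : Fin n) : Integrable (fac s v a b i) := by
  unfold fac
  by_cases h1 : i = a
  · by_cases h2 : i = b
    · refine (gj4 hs (v i)).congr (Eventually.of_forall fun t => ?_)
      beta_reduce
      rw [if_pos h1, if_pos h2]
      ring
    · refine (gj2 hs (v i)).congr (Eventually.of_forall fun t => ?_)
      beta_reduce
      rw [if_pos h1, if_neg h2]
      ring
  · by_cases h2 : i = b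
    · refine (gj2 hs (v i)).congr (Eventually.of_forall fun t => ?_)
      beta_reduce
      rw [if_neg h1, if_pos h2]
      ring
    · refine (gi0 hs).congr (Eventually.of_forall fun t => ?_)
      beta_reduce
      rw [if_neg h1, if_neg h2]
      ring

lemma fac_ne (hs : 0 < s) {a b : Fin n} (hab : a ≠ b) (i : Fin n) : ∫ t, fac s v a b i t =
    (if i = a then v i ^ 2 + 1 / (2 * s) else 1) * (if i = b then v i ^ 2 + 1 / (2 * s) else 1) *
      ∫ t : ℝ, Real.exp (-s * t ^ 2) := by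
  unfold fac
  by_cases h1 : i = a
  · have h2 : i ≠ b := fun h => hab (h1.symm.trans h)
    simp only [if_pos h1, if_neg h2, mul_one]
    exact gk2 hs _
  · by_cases h2 : i = b
    · simp only [if_neg h1, if_pos h2, one_mul]
      exact gk2 hs _
    · simp only [if_neg h1, if_neg h2, one_mul]

lemma fac_eq (hs : 0 < s) (a i : Fin n) : ∫ t, fac s v a a i t =
    (if i = a then v i ^ 4 + 6 * (1 / (2 * s)) * v i ^ 2 + 3 * (1 / (2 * s)) ^ 2 else 1) *
      ∫ t : ℝ, Real.exp (-s * t ^ 2) := by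
  unfold fac
  by_cases h1 : i = a
  · simp only [if_pos h1]
    rw [← gk4 hs]
    refine integral_congr_ae (Eventually.of_forall fun t => ?_)
    beta_reduce
    ring
  · simp only [if_neg h1, one_mul]

lemma pr_int (hs : 0 < s) (a b : Fin n) :
    Integrable fun y : Fin n → ℝ => (y a + v a) ^ 2 * (y b + v b) ^ 2 * ga s y := by
  have h1 : Integrable (fun y : Fin n → ℝ => ∏ i, fac s v a b i (y i)) := by
    rw [volume_pi]
    exact Integrable.fintype_prod fun i => fac_int v hs a b i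
  simpa only [fac_prod] using h1

lemma pr_eq (hs : 0 < s) (a b : Fin n) :
    ∫ y : Fin n → ℝ, (y a + v a) ^ 2 * (y b + v b) ^ 2 * ga s y =
      ((v a ^ 2 + 1 / (2 * s)) * (v b ^ 2 + 1 / (2 * s)) +
        if a = b then 4 * (1 / (2 * s)) * v a ^ 2 + 2 * (1 / (2 * s)) ^ 2 else 0) * Ig n s := by
  simp only [← fac_prod]
  rw [integral_fintype_prod_volume_eq_prod (fun i => fac s v a b i)]
  by_cases hab : a = b
  · subst hab
    simp only [fac_eq v hs, if_true]
    rw [Finset.prod_mul_distrib, Ig_eq]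
    simp only [Finset.prod_ite_eq', Finset.mem_univ, if_true, Finset.prod_const, Finset.card_univ,
      Fintype.card_fin]
    ring
  · simp only [fac_ne v hs hab, if_neg hab]
    rw [Finset.prod_mul_distrib, Finset.prod_mul_distrib, Ig_eq]
    simp only [Finset.prod_ite_eq', Finset.mem_univ, if_true, Finset.prod_const, Finset.card_univ,
      Fintype.card_fin]
    ring

/-- the fourth moment of a shifted Gaussian -/
lemma mom4 (hs : 0 < s) : (Integrable fun y : Fin n → ℝ => nE (y + v) ^ 4 * ga s y) ∧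
    ∫ y : Fin n → ℝ, nE (y + v) ^ 4 * ga s y =
      (nE v ^ 4 + (2 * n + 4) * (1 / (2 * s)) * nE v ^ 2 + n * (n + 2) * (1 / (2 * s)) ^ 2) *
        Ig n s := by
  have e : ∀ y : Fin n → ℝ, nE (y + v) ^ 4 * ga s y =
      ∑ a, ∑ b, (y a + v a) ^ 2 * (y b + v b) ^ 2 * ga s y := by
    intro y
    have h1 : nE (y + v) ^ 4 = (∑ a, (y a + v a) ^ 2) * ∑ b, (y b + v b) ^ 2 := by
      have h2 := Pool.Agent.N991.MK.nE_sq (y + v)
      simp only [Pi.add_apply] at h2
      rw [← h2]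
      ring
    rw [h1, Finset.sum_mul_sum, Finset.sum_mul]
    refine Finset.sum_congr rfl fun a _ => ?_
    rw [Finset.sum_mul]
  have hv : nE v ^ 2 = ∑ a, v a ^ 2 := Pool.Agent.N991.MK.nE_sq v
  have hi : ∀ a : Fin n, Integrable fun y : Fin n → ℝ =>
      ∑ b, (y a + v a) ^ 2 * (y b + v b) ^ 2 * ga s y := fun a =>
    integrable_finsetSum _ fun b _ => pr_int v hs a b
  refine ⟨?_, ?_⟩
  · simp only [e]
    exact integrable_finsetSum _ fun a _ => hi a
  · simp only [e]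
    rw [integral_finsetSum _ fun a _ => hi a]
    have h1 : ∀ a : Fin n, ∫ y : Fin n → ℝ, ∑ b, (y a + v a) ^ 2 * (y b + v b) ^ 2 * ga s y =
        ((v a ^ 2 + 1 / (2 * s)) * (nE v ^ 2 + n * (1 / (2 * s))) +
          (4 * (1 / (2 * s)) * v a ^ 2 + 2 * (1 / (2 * s)) ^ 2)) * Ig n s := by
      intro a
      rw [integral_finsetSum _ fun b _ => pr_int v hs a b]
      simp only [pr_eq v hs]
      rw [← Finset.sum_mul, Finset.sum_add_distrib, ← Finset.mul_sum, Finset.sum_add_distrib,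
        Finset.sum_ite_eq, hv]
      simp
    simp only [h1]
    rw [← Finset.sum_mul, Finset.sum_add_distrib, Finset.sum_add_distrib, ← Finset.sum_mul,
      Finset.sum_add_distrib, ← Finset.mul_sum, ← hv]
    simp only [Finset.sum_const, Finset.card_univ, Fintype.card_fin, nsmul_eq_mul]
    ring

/-- the second moment of a shifted Gaussian -/
lemma mom2 (hs : 0 < s) : (Integrable fun y : Fin n → ℝ => nE (y + v) ^ 2 * ga s y) ∧
    ∫ y : Fin n → ℝ, nE (y + v) ^ 2 * ga s y = (nE v ^ 2 + n * (1 / (2 * s))) * Ig n s := by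
  have e : ∀ y : Fin n → ℝ, nE (y + v) ^ 2 * ga s y =
      ∑ a, (y a + v a) ^ 2 * ga s y := by
    intro y
    have h2 := Pool.Agent.N991.MK.nE_sq (y + v)
    simp only [Pi.add_apply] at h2
    rw [h2, Finset.sum_mul]
  have hv : nE v ^ 2 = ∑ a, v a ^ 2 := Pool.Agent.N991.MK.nE_sq v
  have hp : ∀ (a : Fin n) (y : Fin n → ℝ),
      ∏ i, ((if i = a then (y i + v i) ^ 2 else 1) * Real.exp (-s * y i ^ 2)) =
        (y a + v a) ^ 2 * ga s y := by
    intro a y
    rw [Finset.prod_mul_distrib, ga_prod]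
    simp
  have hf : ∀ a i : Fin n, Integrable fun t : ℝ =>
      (if i = a then (t + v i) ^ 2 else 1) * Real.exp (-s * t ^ 2) := by
    intro a i
    by_cases h1 : i = a
    · simp only [if_pos h1]
      exact gj2 hs _
    · simp only [if_neg h1, one_mul]
      exact gi0 hs
  have hi : ∀ a : Fin n, Integrable fun y : Fin n → ℝ => (y a + v a) ^ 2 * ga s y := by
    intro a
    have h1 : Integrable (fun y : Fin n → ℝ =>
        ∏ i, ((if i = a then (y i + v i) ^ 2 else 1) * Real.exp (-s * y i ^ 2))) := by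
      rw [volume_pi]
      exact Integrable.fintype_prod (f := fun i (t : ℝ) =>
        (if i = a then (t + v i) ^ 2 else 1) * Real.exp (-s * t ^ 2)) fun i => hf a i
    simpa only [hp] using h1
  refine ⟨?_, ?_⟩
  · simp only [e]
    exact integrable_finsetSum _ fun a _ => hi a
  · simp only [e]
    rw [integral_finsetSum _ fun a _ => hi a]
    have h1 : ∀ a : Fin n, ∫ y : Fin n → ℝ, (y a + v a) ^ 2 * ga s y =
        (v a ^ 2 + 1 / (2 * s)) * Ig n s := by
      intro a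
      simp only [← hp]
      rw [integral_fintype_prod_volume_eq_prod (fun i (t : ℝ) =>
        (if i = a then (t + v i) ^ 2 else 1) * Real.exp (-s * t ^ 2))]
      have h2 : ∀ i : Fin n, ∫ t : ℝ, (if i = a then (t + v i) ^ 2 else 1) *
          Real.exp (-s * t ^ 2) = (if i = a then v i ^ 2 + 1 / (2 * s) else 1) *
            ∫ t : ℝ, Real.exp (-s * t ^ 2) := by
        intro i
        by_cases h1 : i = a
        · simp only [if_pos h1]
          exact gk2 hs _
        · simp only [if_neg h1, one_mul]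
      simp only [h2]
      rw [Finset.prod_mul_distrib, Ig_eq]
      simp
    simp only [h1]
    rw [← Finset.sum_mul, Finset.sum_add_distrib, ← hv]
    simp

end two

/-- the radial polynomials of degree four -/
def rp (b0 b2 b4 : ℝ) (x : Fin n → ℝ) : ℝ := b0 + b2 * nE x ^ 2 + b4 * nE x ^ 4

lemma ga_int {s : ℝ} (hs : 0 < s) : Integrable fun y : Fin n → ℝ => ga s y := by
  have h1 : Integrable (fun y : Fin n → ℝ => ∏ i, Real.exp (-s * y i ^ 2)) := by
    rw [volume_pi]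
    exact Integrable.fintype_prod (f := fun _ (t : ℝ) => Real.exp (-s * t ^ 2)) fun i => gi0 hs
  simpa only [ga_prod] using h1

lemma rp_mom {s : ℝ} (hs : 0 < s) (b0 b2 b4 : ℝ) (v : Fin n → ℝ) :
    ∫ y : Fin n → ℝ, rp b0 b2 b4 (y + v) * ga s y =
      rp (b0 + n * (1 / (2 * s)) * b2 + n * (n + 2) * (1 / (2 * s)) ^ 2 * b4)
        (b2 + (2 * n + 4) * (1 / (2 * s)) * b4) b4 v * Ig n s := by
  have e : ∀ y : Fin n → ℝ, rp b0 b2 b4 (y + v) * ga s y =
      b0 * ga s y + b2 * (nE (y + v) ^ 2 * ga s y) + b4 * (nE (y + v) ^ 4 * ga s y) := by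
    intro y
    unfold rp
    ring
  simp only [e]
  have j0 := (ga_int (n := n) hs).const_mul b0
  have j2 := (mom2 v hs).1.const_mul b2
  have j4 := (mom4 v hs).1.const_mul b4
  have j02 : Integrable fun y : Fin n → ℝ => b0 * ga s y + b2 * (nE (y + v) ^ 2 * ga s y) :=
    j0.add j2
  rw [integral_add j02 j4, integral_add j0 j2, integral_const_mul, integral_const_mul,
    integral_const_mul, (mom2 v hs).2, (mom4 v hs).2]
  have : ∫ y : Fin n → ℝ, ga s y = Ig n s := rfl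
  rw [this]
  unfold rp
  ring

lemma nE_half (x : Fin n → ℝ) : nE ((1 / 2 : ℝ) • x) ^ 2 = nE x ^ 2 / 4 := by
  rw [Pool.Agent.N991.MK.nE_sq, Pool.Agent.N991.MK.nE_sq, Finset.sum_div]
  refine Finset.sum_congr rfl fun a _ => ?_
  simp only [Pi.smul_apply, smul_eq_mul]
  ring

/-- **the convolution of a Gaussian with a radial polynomial** -/
lemma cvR_rp {a : ℝ} (ha : 0 < a) (b0 b2 b4 : ℝ) :
    cvR (n := n) (fun x => rp b0 b2 b4 x * ga a x) (ga a) = fun x => Ig n (2 * a) *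
      (rp (b0 + n * (1 / (4 * a)) * b2 + n * (n + 2) * (1 / (4 * a)) ^ 2 * b4)
        ((b2 + (2 * n + 4) * (1 / (4 * a)) * b4) / 4) (b4 / 16) x * ga (a / 2) x) := by
  funext x
  unfold cvR
  have h := rp_mom (n := n) (s := 2 * a) (by positivity) b0 b2 b4 ((1 / 2 : ℝ) • x)
  have e1 : (1 : ℝ) / (2 * (2 * a)) = 1 / (4 * a) := by
    congr 1
    ring
  rw [e1] at h
  rw [← integral_add_right_eq_self _ ((1 / 2 : ℝ) • x)]
  have e2 : ∀ y : Fin n → ℝ, rp b0 b2 b4 (y + (1 / 2 : ℝ) • x) * ga a (y + (1 / 2 : ℝ) • x) *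
      ga a (x - (y + (1 / 2 : ℝ) • x)) =
        ga (a / 2) x * (rp b0 b2 b4 (y + (1 / 2 : ℝ) • x) * ga (2 * a) y) := by
    intro y
    have e3 : ga a (y + (1 / 2 : ℝ) • x) * ga a (x - (y + (1 / 2 : ℝ) • x)) =
        ga (a / 2) x * ga (2 * a) y := by
      unfold ga
      rw [← Real.exp_add, ← Real.exp_add]
      congr 1
      simp only [Pool.Agent.N991.MK.nE_sq]
      simp only [Finset.mul_sum, ← Finset.sum_neg_distrib, ← Finset.sum_add_distrib]
      refine Finset.sum_congr rfl fun i _ => ?_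
      simp only [Pi.sub_apply, Pi.add_apply, Pi.smul_apply, smul_eq_mul]
      ring
    rw [mul_assoc, e3]
    ring
  simp only [e2]
  rw [integral_const_mul, h]
  have e4 : ∀ c0 c2 c4 : ℝ, rp c0 c2 c4 ((1 / 2 : ℝ) • x) = rp c0 (c2 / 4) (c4 / 16) x := by
    intro c0 c2 c4
    unfold rp
    have e5 : nE ((1 / 2 : ℝ) • x) ^ 4 = (nE x ^ 2 / 4) ^ 2 := by
      rw [← nE_half]
      ring
    rw [nE_half, e5]
    ring
  rw [e4]
  ring

lemma cvR_comm (f g : (Fin n → ℝ) → ℝ) : cvR f g = cvR g f := by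
  funext x
  unfold cvR
  rw [← integral_sub_left_eq_self _ volume x]
  refine integral_congr_ae (Eventually.of_forall fun y => ?_)
  beta_reduce
  rw [sub_sub_cancel]
  ring

lemma rp_one (x : Fin n → ℝ) : rp 1 0 0 x = 1 := by
  unfold rp
  ring

lemma cvR_ga2 {a : ℝ} (ha : 0 < a) :
    cvR (n := n) (ga a) (ga a) = fun x => Ig n (2 * a) * ga (a / 2) x := by
  have h := cvR_rp (n := n) ha 1 0 0
  simp only [mul_zero, add_zero, zero_div, rp_one, one_mul] at h
  exact h

end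

end Pool.Agent.N453.T3
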