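import Mathlib
import Pool.Agent.N839.T3.Sc3
import Pool.Agent.N681.MK.Tan4
import Pool.Agent.N453.T3.SqG

/-!
# The scaling limit of one step of the renormalisation of a field
-/

open MeasureTheory Matrix Filter Pool.Agent.N991.MK Pool.Agent.N989.MK
open scoped Matrix.Norms.Frobenius Topology
open Pool.Agent.H906R3.YM Pool.Agent.W793.YM Pool.Agent.TH618.YM Pool.Agent.N984.TW
open Pool.Agent.N681.MK (evo dTn fld dH4 dcv dTT H4_scale dH4_scale cont_H4 cont_dH4)
open Pool.Agent.N109.T3 (nz gs fr cvR)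
open Pool.Agent.N839.T3 (em SD gs_eq)

namespace Pool.Agent.N453.T3

set_option linter.unusedSectionVars false

noncomputable section

lemma gs_ga {n : ℕ} (x : Fin n → ℝ) : gs x = ga (1 / 2) x := by
  rw [gs_eq]
  unfold ga
  congr 1
  ring

lemma ga_pow {n : ℕ} (a : ℝ) (k : ℕ) (x : Fin n → ℝ) : ga a x ^ k = ga (k * a) x := by
  unfold ga
  rw [← Real.exp_nat_mul]
  congr 1
  ring

lemma ga_zero {n : ℕ} (a : ℝ) : ga a (0 : Fin n → ℝ) = 1 := by
  unfold ga
  have : nE (0 : Fin n → ℝ) ^ 2 = 0 := by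
    rw [Pool.Agent.N991.MK.nE_sq]
    simp
  rw [this, mul_zero, neg_zero, Real.exp_zero]

lemma rp_zero {n : ℕ} (b0 b2 b4 : ℝ) : rp b0 b2 b4 (0 : Fin n → ℝ) = b0 := by
  unfold rp
  have h : nE (0 : Fin n → ℝ) ^ 2 = 0 := by
    rw [Pool.Agent.N991.MK.nE_sq]
    simp
  have h4 : nE (0 : Fin n → ℝ) ^ 4 = (nE (0 : Fin n → ℝ) ^ 2) ^ 2 := by ring
  rw [h4, h]
  ring

lemma Ig_half {n : ℕ} : ∫ y, gs (n := n) y = Ig n (1 / 2) := by
  unfold Ig
  simp only [gs_ga]

variable {N n : ℕ} {G : Subgroup (UN N)} {B : Frame G n} {hG : IsClosed (G : Set (UN N))}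
  {ι : Type*} {l : Filter ι} {h : ι → ℝ}

lemma em_zero (t : ℝ) : em B hG t 0 = 1 := by
  unfold Pool.Agent.N839.T3.em
  rw [smul_zero]
  apply mt_inj
  rw [mt_Eg, EM_zero, mt_one]

lemma SD.at_one {f : ι → G → ℝ} {F : (Fin n → ℝ) → ℝ} (H : SD B hG l h f F) :
    Tendsto (fun i => f i 1) l (𝓝 (F 0)) := by
  have h1 := H.app (i := fun i => i) (L := l) (W := fun _ => 0) (w0 := 0) tendsto_id
    tendsto_const_nhds
  simpa only [em_zero] using h1

/-- change of the scale -/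
lemma SD.rescale {f : ι → G → ℝ} {F : (Fin n → ℝ) → ℝ} (H : SD B hG l h f F) {h' : ι → ℝ}
    (ht : Tendsto h' l atTop) (hr : Tendsto (fun i => h i / h' i) l (𝓝 1)) :
    SD B hG l h' f F := by
  refine ⟨ht, H.cont, fun x => ?_, ?_⟩
  · have h1 : Tendsto (fun p : ι × (Fin n → ℝ) => Real.sqrt (h p.1 / h' p.1) • p.2) (l ×ˢ 𝓝 x)
        (𝓝 x) := by
      have h2 : Tendsto (fun p : ι × (Fin n → ℝ) => Real.sqrt (h p.1 / h' p.1)) (l ×ˢ 𝓝 x)
          (𝓝 (Real.sqrt 1)) := (hr.comp tendsto_fst).sqrt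
      have h3 := h2.smul (tendsto_snd : Tendsto (fun p : ι × (Fin n → ℝ) => p.2) (l ×ˢ 𝓝 x) (𝓝 x))
      rw [Real.sqrt_one, one_smul] at h3
      exact h3
    refine (H.app tendsto_fst h1).congr' ?_
    filter_upwards [tendsto_fst.eventually (H.top.eventually_gt_atTop 0),
      tendsto_fst.eventually (ht.eventually_gt_atTop 0)] with p h2 h3
    have h4 : em B hG (h p.1) (Real.sqrt (h p.1 / h' p.1) • p.2) = em B hG (h' p.1) p.2 := by
      unfold Pool.Agent.N839.T3.em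
      rw [smul_smul, Real.sqrt_div h2.le]
      congr 2
      have := (Real.sqrt_pos.2 h2).ne'
      field_simp
    rw [h4]
  · obtain ⟨C, c, hC, hc, hd⟩ := H.dom
    refine ⟨C, c / 2, hC, by positivity, ?_⟩
    filter_upwards [hd, ht.eventually_gt_atTop 0,
      hr.eventually (lt_mem_nhds (show (1 / 2 : ℝ) < 1 by norm_num))] with i h1 h2 h3 z
    refine (h1 z).trans (mul_le_mul_of_nonneg_left (Real.exp_le_exp.2 (neg_le_neg ?_)) hC)
    rw [lt_div_iff₀ h2] at h3
    have h4 : h' i * nN z ^ 2 ≤ 2 * (h i * nN z ^ 2) := by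
      have : 0 ≤ nN z ^ 2 := by positivity
      nlinarith
    have h5 := mul_le_mul_of_nonneg_left h4 hc.le
    linarith

variable [CompactSpace G] [MeasurableSpace G] [BorelSpace G] [SecondCountableTopology G]
  {μ : Measure G} [IsProbabilityMeasure μ] [μ.IsHaarMeasure] [μ.IsMulRightInvariant]
  [μ.IsInvInvariant]

/-- the evolution of a field during one step -/
lemma evo_step {f φ : G → ℝ} (hf : Adm f) (x : G) :
    evo μ f φ 1 x = 4 * (dH4 μ (fun y => f y / f 1) (fun y => φ y * (f y / f 1)) x /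
      H4 μ (fun y => f y / f 1) x - dH4 μ (fun y => f y / f 1) (fun y => φ y * (f y / f 1)) 1 /
      H4 μ (fun y => f y / f 1) 1) := by
  have h0 := hf.pos 1
  have hH := (hf.H4 (μ := μ)).pos
  have e1 : (fun y => f y / f 1) = fun y => (f 1)⁻¹ * f y := by
    funext y
    ring
  have e2 : (fun y => φ y * (f y / f 1)) = fun y => (f 1)⁻¹ * (φ y * f y) := by
    funext y
    ring
  rw [e1, e2, H4_scale, dH4_scale]
  have e3 : evo μ f φ 1 x = 4 * H4 μ f x ^ 3 * dH4 μ f (fun y => φ y * f y) x / H4 μ f x ^ 4 -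
      4 * H4 μ f 1 ^ 3 * dH4 μ f (fun y => φ y * f y) 1 / H4 μ f 1 ^ 4 := rfl
  rw [e3]
  have h1 := (hH x).ne'
  have h2 := (hH 1).ne'
  have h3 := h0.ne'
  field_simp

lemma TT_step {f : G → ℝ} (hf : Adm f) (x : G) :
    TT μ f x / TT μ f 1 = (H4 μ (fun y => f y / f 1) x / H4 μ (fun y => f y / f 1) 1) ^ 4 := by
  have h0 := hf.pos 1
  have hH := (hf.H4 (μ := μ)).pos
  have e1 : (fun y => f y / f 1) = fun y => (f 1)⁻¹ * f y := by
    funext y
    ring
  rw [e1, H4_scale]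
  unfold TT
  have h1 := (hH x).ne'
  have h2 := (hH 1).ne'
  have h3 := h0.ne'
  field_simp

lemma H4_pos' {f : G → ℝ} (hf : Adm f) (x : G) : 0 < H4 μ (fun y => f y / f 1) x := by
  have h0 := hf.pos 1
  have hH := (hf.H4 (μ := μ)).pos
  have e1 : (fun y => f y / f 1) = fun y => (f 1)⁻¹ * f y := by
    funext y
    ring
  rw [e1, H4_scale]
  have := hH x
  positivity

/-- the constant -/
def Ac (n : ℕ) : ℝ := (Ig n 1 / Ig n (1 / 2)) ^ 2

lemma Ac_pos : 0 < Ac n := by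
  unfold Ac
  have h1 := Ig_pos (n := n) one_pos
  have h2 := Ig_pos (n := n) (s := 1 / 2) (by norm_num)
  positivity

variable [l.IsCountablyGenerated] {D : ι → G → ℝ}

lemma conv2 (H : SD B hG l h D gs) : SD B hG l h
    (fun i x => Pool.Agent.N991.MK.conv μ (D i) (D i) x / nz μ (h i))
    (fun x => Ig n 1 / Ig n (1 / 2) * ga (1 / 4) x) := by
  refine (H.conv H (μ := μ)).congr (fun i x => rfl) fun x => ?_
  have e : (gs : (Fin n → ℝ) → ℝ) = ga (1 / 2) := funext gs_ga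
  rw [e, cvR_ga2 (by norm_num : (0 : ℝ) < 1 / 2)]
  have e2 : ∫ y, ga (n := n) (1 / 2) y = Ig n (1 / 2) := rfl
  rw [e2]
  norm_num
  ring

/-- the fourfold convolution -/
lemma H4_lim (H : SD B hG l h D gs) : SD B hG l h
    (fun i x => H4 μ (D i) x / nz μ (h i) ^ 3) (fun x => Ac n * ga (1 / 8) x) := by
  have h1 := conv2 (μ := μ) H
  refine (h1.conv h1 (μ := μ)).congr (fun i x => ?_) fun x => ?_
  · unfold H4
    have e : (fun x => Pool.Agent.N991.MK.conv μ (D i) (D i) x / nz μ (h i)) =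
        fun x => (nz μ (h i))⁻¹ * Pool.Agent.N991.MK.conv μ (D i) (D i) x := by
      funext x
      ring
    rw [e, Pool.Agent.N681.MK.conv_scale2]
    beta_reduce
    ring
  · obtain ⟨a, ha⟩ : ∃ a, a = Ig n 1 / Ig n (1 / 2) := ⟨_, rfl⟩
    have e1 : cvR (fun x : Fin n → ℝ => a * ga (1 / 4) x) (fun x => a * ga (1 / 4) x) =
        fun x => a * a * cvR (ga (1 / 4)) (ga (1 / 4)) x := by
      funext x
      unfold cvR
      rw [← integral_const_mul]
      refine integral_congr_ae (Eventually.of_forall fun y => ?_)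
      beta_reduce
      ring
    rw [← ha, e1, cvR_ga2 (by norm_num : (0 : ℝ) < 1 / 4), Ig_half]
    have h2 := (Ig_pos (n := n) (s := 1 / 2) (by norm_num)).ne'
    unfold Ac
    rw [← ha]
    norm_num
    field_simp

variable {u : ι → G → ℝ} {b0 b2 b4 : ℝ}

lemma cvR_cmul (a b : ℝ) (F Γ : (Fin n → ℝ) → ℝ) (x : Fin n → ℝ) :
    cvR (fun x => a * F x) (fun x => b * Γ x) x = a * b * cvR F Γ x := by
  unfold cvR
  rw [← integral_const_mul]
  refine integral_congr_ae (Eventually.of_forall fun y => ?_)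
  beta_reduce
  ring

/-- the derivative of the convolution square -/
lemma dcv_lim (H : SD B hG l h D gs) (K : SD B hG l h u (fun x => rp b0 b2 b4 x * gs x)) :
    SD B hG l h (fun i x => dcv μ (D i) (u i) x / nz μ (h i))
      (fun x => 2 * (Ig n 1 / Ig n (1 / 2)) *
        (rp (b0 + n / 2 * b2 + n * (n + 2) / 4 * b4) ((b2 + (n + 2) * b4) / 4) (b4 / 16) x *
          ga (1 / 4) x)) := by
  refine ((H.conv K (μ := μ)).add (K.conv H (μ := μ))).congr (fun i x => ?_) fun x => ?_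
  · unfold dcv
    ring
  · rw [cvR_comm gs]
    have e : (gs : (Fin n → ℝ) → ℝ) = ga (1 / 2) := funext gs_ga
    rw [e, cvR_rp (by norm_num : (0 : ℝ) < 1 / 2)]
    have e2 : ∫ y, ga (n := n) (1 / 2) y = Ig n (1 / 2) := rfl
    rw [e2]
    beta_reduce
    have c0 : b0 + n * (1 / (4 * (1 / 2))) * b2 + n * (n + 2) * (1 / (4 * (1 / 2))) ^ 2 * b4 =
        b0 + n / 2 * b2 + n * (n + 2) / 4 * b4 := by ring
    have c2 : (b2 + (2 * n + 4) * (1 / (4 * (1 / 2))) * b4) / 4 = (b2 + (n + 2) * b4) / 4 := by ring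
    have c3 : (1 : ℝ) / 2 / 2 = 1 / 4 := by norm_num
    have c4 : (2 : ℝ) * (1 / 2) = 1 := by norm_num
    rw [c0, c2, c3, c4]
    ring

/-- the derivative of the fourfold convolution -/
lemma dH4_lim (H : SD B hG l h D gs) (K : SD B hG l h u (fun x => rp b0 b2 b4 x * gs x)) :
    ∃ b0' : ℝ, SD B hG l h (fun i x => dH4 μ (D i) (u i) x / nz μ (h i) ^ 3)
      (fun x => 4 * Ac n *
        (rp b0' (b2 / 16 + 3 * (n + 2) * b4 / 32) (b4 / 256) x * ga (1 / 8) x)) := by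
  have h1 := conv2 (μ := μ) H
  have h2 := dcv_lim (μ := μ) H K
  obtain ⟨a, ha⟩ : ∃ a, a = Ig n 1 / Ig n (1 / 2) := ⟨_, rfl⟩
  obtain ⟨d0, hd0⟩ : ∃ d0, d0 = b0 + n / 2 * b2 + n * (n + 2) / 4 * b4 := ⟨_, rfl⟩
  obtain ⟨d2, hd2⟩ : ∃ d2, d2 = (b2 + (n + 2) * b4) / 4 := ⟨_, rfl⟩
  obtain ⟨d4, hd4⟩ : ∃ d4, d4 = b4 / 16 := ⟨_, rfl⟩
  rw [← ha, ← hd0, ← hd2, ← hd4] at h2
  rw [← ha] at h1
  refine ⟨d0 + n * d2 + n * (n + 2) * d4, ?_⟩
  refine ((h1.conv h2 (μ := μ)).add (h2.conv h1 (μ := μ))).congr (fun i x => ?_) fun x => ?_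
  · unfold dH4
    have e1 : (fun x => Pool.Agent.N991.MK.conv μ (D i) (D i) x / nz μ (h i)) =
        fun x => (nz μ (h i))⁻¹ * Pool.Agent.N991.MK.conv μ (D i) (D i) x := by
      funext x
      ring
    have e2 : (fun x => dcv μ (D i) (u i) x / nz μ (h i)) =
        fun x => (nz μ (h i))⁻¹ * dcv μ (D i) (u i) x := by
      funext x
      ring
    rw [e1, e2, Pool.Agent.N681.MK.conv_scale2, Pool.Agent.N681.MK.conv_scale2]
    beta_reduce
    have e3 : dcv μ (Pool.Agent.N991.MK.conv μ (D i) (D i)) (dcv μ (D i) (u i)) x =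
      Pool.Agent.N991.MK.conv μ (Pool.Agent.N991.MK.conv μ (D i) (D i)) (dcv μ (D i) (u i)) x +
      Pool.Agent.N991.MK.conv μ (dcv μ (D i) (u i)) (Pool.Agent.N991.MK.conv μ (D i) (D i)) x := rfl
    rw [e3]
    ring
  · rw [cvR_comm (fun x => a * ga (1 / 4) x), cvR_cmul,
      cvR_rp (by norm_num : (0 : ℝ) < 1 / 4), Ig_half]
    beta_reduce
    have c0 : d0 + n * (1 / (4 * (1 / 4))) * d2 + n * (n + 2) * (1 / (4 * (1 / 4))) ^ 2 * d4 =
        d0 + n * d2 + n * (n + 2) * d4 := by ring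
    have c2 : (d2 + (2 * n + 4) * (1 / (4 * (1 / 4))) * d4) / 4 =
        b2 / 16 + 3 * (n + 2) * b4 / 32 := by
      rw [hd2, hd4]
      ring
    have c5 : d4 / 16 = b4 / 256 := by
      rw [hd4]
      ring
    have c3 : (1 : ℝ) / 4 / 2 = 1 / 8 := by norm_num
    have c4 : (2 : ℝ) * (1 / 4) = 1 / 2 := by norm_num
    rw [c0, c2, c3, c4, c5]
    have h2 := (Ig_pos (n := n) (s := 1 / 2) (by norm_num)).ne'
    unfold Ac
    rw [← ha]
    field_simp
    ring

/-- **The scaling limit of one step**: the density. -/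
lemma TT_lim {f : ι → G → ℝ} (hf : ∀ i, Adm (f i)) (H : SD B hG l h (fun i x => f i x / f i 1) gs) :
    SD B hG l h (fun i x => TT μ (f i) x / TT μ (f i) 1) gs := by
  have h1 := H4_lim (μ := μ) H
  have hA := Ac_pos (n := n)
  have h2 : Tendsto (fun i => (H4 μ (fun y => f i y / f i 1) 1 / nz μ (h i) ^ 3)⁻¹) l
      (𝓝 (Ac n)⁻¹) := by
    have h3 := SD.at_one h1
    rw [ga_zero, mul_one] at h3
    exact h3.inv₀ hA.ne'
  have h4 := h1.smul h2
  refine ((h4.mul h4).mul (h4.mul h4)).congr (fun i x => ?_) fun x => ?_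
  · rw [TT_step (hf i)]
    have hn := (Pool.Agent.N839.T3.nz_pos (μ := μ) (h i)).ne'
    have hH1 := (H4_pos' (μ := μ) (hf i) 1).ne'
    field_simp
  · have e : gs x = ga (1 / 8) x ^ 4 := by
      rw [ga_pow, gs_ga]
      norm_num
    rw [e]
    field_simp

/-- **The scaling limit of one step**: the field multiplied by the fourth root of the density. -/
lemma evo_lim {f q : ι → G → ℝ} (hf : ∀ i, Adm (f i))
    (H : SD B hG l h (fun i x => f i x / f i 1) gs)
    (K : SD B hG l h (fun i x => q i x * (f i x / f i 1)) (fun x => rp b0 b2 b4 x * gs x)) :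
    SD B hG l h (fun i x => evo μ (f i) (q i) 1 x *
        (H4 μ (fun y => f i y / f i 1) x / H4 μ (fun y => f i y / f i 1) 1))
      (fun x => rp 0 (b2 + 3 / 2 * (n + 2) * b4) (b4 / 16) x * ga (1 / 8) x) ∧
    SD B hG l h (fun i x => H4 μ (fun y => f i y / f i 1) x / H4 μ (fun y => f i y / f i 1) 1)
      (fun x => ga (1 / 8) x) := by
  have h1 := H4_lim (μ := μ) H
  obtain ⟨d0, h5⟩ := dH4_lim (μ := μ) H K
  have hA := Ac_pos (n := n)
  have h2 : Tendsto (fun i => (H4 μ (fun y => f i y / f i 1) 1 / nz μ (h i) ^ 3)⁻¹) l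
      (𝓝 (Ac n)⁻¹) := by
    have h3 := SD.at_one h1
    rw [ga_zero, mul_one] at h3
    exact h3.inv₀ hA.ne'
  have h4 := h1.smul h2
  have h6 := h5.smul (h2.const_mul 4)
  have h7 := SD.at_one h6
  have h8 := h6.add (h4.smul h7.neg)
  refine ⟨h8.congr (fun i x => ?_) fun x => ?_, h4.congr (fun i x => ?_) fun x => ?_⟩
  · rw [evo_step (hf i)]
    have hn := (Pool.Agent.N839.T3.nz_pos (μ := μ) (h i)).ne'
    have hH1 := (H4_pos' (μ := μ) (hf i) 1).ne'
    have hHx := (H4_pos' (μ := μ) (hf i) x).ne'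
    field_simp
    ring
  · rw [ga_zero, rp_zero]
    unfold rp
    field_simp
    ring
  · have hn := (Pool.Agent.N839.T3.nz_pos (μ := μ) (h i)).ne'
    have hH1 := (H4_pos' (μ := μ) (hf i) 1).ne'
    field_simp
  · field_simp

/-- **The scaling limit of one step** -/
theorem step_lim {f q : ι → G → ℝ} (hf : ∀ i, Adm (f i))
    (H : SD B hG l h (fun i x => f i x / f i 1) gs)
    (K : SD B hG l h (fun i x => q i x * (f i x / f i 1)) (fun x => rp b0 b2 b4 x * gs x)) :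
    SD B hG l h (fun i x => evo μ (f i) (q i) 1 x * (TT μ (f i) x / TT μ (f i) 1))
      (fun x => rp 0 (b2 + 3 / 2 * (n + 2) * b4) (b4 / 16) x * gs x) := by
  obtain ⟨h1, h2⟩ := evo_lim (μ := μ) hf H K
  refine ((h1.mul h2).mul (h2.mul h2)).congr (fun i x => ?_) fun x => ?_
  · rw [TT_step (hf i)]
    ring
  · have e : gs x = ga (1 / 8) x ^ 4 := by
      rw [ga_pow, gs_ga]
      norm_num
    rw [e]
    ring

/-- the square of a field after one step -/
theorem sq_lim {f q : ι → G → ℝ} (hf : ∀ i, Adm (f i))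
    (H : SD B hG l h (fun i x => f i x / f i 1) gs)
    (K : SD B hG l h (fun i x => q i x * (f i x / f i 1)) (fun x => rp b0 b2 0 x * gs x)) :
    SD B hG l h (fun i x => evo μ (f i) (q i) 1 x ^ 2 * (TT μ (f i) x / TT μ (f i) 1))
      (fun x => rp 0 0 (b2 ^ 2) x * gs x) := by
  obtain ⟨h1, h2⟩ := evo_lim (μ := μ) hf H K
  refine ((h1.mul h1).mul (h2.mul h2)).congr (fun i x => ?_) fun x => ?_
  · rw [TT_step (hf i)]
    ring
  · have e : gs x = ga (1 / 8) x ^ 4 := by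
      rw [ga_pow, gs_ga]
      norm_num
    rw [e]
    unfold rp
    ring

end

end Pool.Agent.N453.T3
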