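import Mathlib
import Pool.Agent.N453.T3.SqS
import Pool.Agent.N681.MK.Tan5

/-!
# The scaling limit of the renormalisation of the square of the field
-/

open MeasureTheory Matrix Filter Pool.Agent.N991.MK Pool.Agent.N989.MK
open scoped Matrix.Norms.Frobenius Topology
open Pool.Agent.H906R3.YM Pool.Agent.W793.YM Pool.Agent.TH618.YM Pool.Agent.N984.TW
open Pool.Agent.N681.MK (evo evo_add evo_smul evo_nrm cont_evo evo_zero)
open Pool.Agent.N109.T3 (nz gs fr cvR)
open Pool.Agent.N839.T3 (em SD gs_eq)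

namespace Pool.Agent.N453.T3

set_option linter.unusedSectionVars false

noncomputable section

variable {N n : ℕ} {G : Subgroup (UN N)} {B : Frame G n} {hG : IsClosed (G : Set (UN N))}
  {ι : Type*} {l : Filter ι} {h : ι → ℝ}

variable [CompactSpace G] [MeasurableSpace G] [BorelSpace G] [SecondCountableTopology G]
  {μ : Measure G} [IsProbabilityMeasure μ] [μ.IsHaarMeasure] [μ.IsMulRightInvariant]
  [μ.IsInvInvariant]

/-- the scaling limit of several steps -/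
theorem steps_lim [l.IsCountablyGenerated] {f q : ι → G → ℝ} (hf : ∀ i, Adm (f i))
    (hq : ∀ i, Continuous (q i)) {b0 b2 b4 : ℝ}
    (H : SD B hG l h (fun i x => f i x / f i 1) gs)
    (K : SD B hG l h (fun i x => q i x * (f i x / f i 1)) (fun x => rp b0 b2 b4 x * gs x)) (J : ℕ) :
    SD B hG l h (fun i x => TTn μ (f i) J x / TTn μ (f i) J 1) gs ∧
      SD B hG l h (fun i x => evo μ (f i) (q i) J x * (TTn μ (f i) J x / TTn μ (f i) J 1))
        (fun x => rp 0 (b2 + 8 / 5 * (n + 2) * b4 * (1 - (1 / 16) ^ J)) (b4 * (1 / 16) ^ J) x *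
          gs x) := by
  induction J with
  | zero =>
    refine ⟨H, ?_⟩
    have h1 : Tendsto (fun i => q i 1) l (𝓝 b0) := by
      have h2 := SD.at_one K
      rw [rp_zero, gs_ga, ga_zero, mul_one] at h2
      refine h2.congr fun i => ?_
      rw [div_self ((hf i).pos 1).ne', mul_one]
    refine (K.add (H.smul h1.neg)).congr (fun i x => ?_) fun x => ?_
    · rw [evo_zero (hf i)]
      change (q i x - q i 1) * (f i x / f i 1) = _
      ring
    · unfold rp
      ring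
  | succ J ih =>
    obtain ⟨h1, h2⟩ := ih
    have hT : ∀ i, Adm (TTn μ (f i) J) := fun i => (hf i).TTn J
    refine ⟨TT_lim (μ := μ) hT h1, (step_lim (μ := μ) hT h1 h2).congr (fun i x => ?_) fun x => ?_⟩
    · rw [evo_add (hf i) (hq i)]
      rfl
    · unfold rp
      ring

/-- the evaluation at scaled points -/
lemma SD.div_lim {f q : ι → G → ℝ} {Q : (Fin n → ℝ) → ℝ} (hf : ∀ i x, 0 < f i x)
    (H : SD B hG l h (fun i x => f i x / f i 1) gs)
    (K : SD B hG l h (fun i x => q i x * (f i x / f i 1)) (fun x => Q x * gs x)) (y : Fin n → ℝ) :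
    Tendsto (fun i => q i (em B hG (h i) y)) l (𝓝 (Q y)) := by
  have h1 := H.app (i := fun i => i) (L := l) (W := fun _ => y) (w0 := y) tendsto_id
    tendsto_const_nhds
  have h2 := K.app (i := fun i => i) (L := l) (W := fun _ => y) (w0 := y) tendsto_id
    tendsto_const_nhds
  have hg : gs y ≠ 0 := by
    rw [gs_eq]
    exact (Real.exp_pos _).ne'
  have h3 := h2.div h1 hg
  rw [mul_div_cancel_right₀ _ hg] at h3
  refine h3.congr fun i => ?_
  exact mul_div_cancel_right₀ _ (div_pos (hf i _) (hf i 1)).ne'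

omit [CompactSpace G] [MeasurableSpace G] [BorelSpace G] [SecondCountableTopology G] in
/-- subsequences -/
lemma SD.comp' {ι' : Type*} {l' : Filter ι'} {t : ι' → ι} {f : ι → G → ℝ} {F : (Fin n → ℝ) → ℝ}
    (H : SD B hG l h f F) (ht : Tendsto t l' l) :
    SD B hG l' (fun i => h (t i)) (fun i => f (t i)) F := by
  refine ⟨H.top.comp ht, fun i => H.cont _, fun x => ?_, ?_⟩
  · exact H.app (i := fun p : ι' × (Fin n → ℝ) => t p.1) (W := fun p => p.2)
      (ht.comp tendsto_fst) tendsto_snd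
  · obtain ⟨C, c, hC, hc, hd⟩ := H.dom
    exact ⟨C, c, hC, hc, ht.eventually hd⟩

/-- the square of the field of the limit theory at short distances -/
theorem sq_sd {c : ℝ} (hc : 0 < c) {F Φ : ℤ → G → ℝ}
    (hF : ∀ k, Adm (F k)) (hFs : ∀ k, F (k + 1) = nrm μ (TT μ (F k)))
    (hΦs : ∀ k, Φ (k + 1) = evo μ (F k) (Φ k) 1)
    (s1 : SD B hG atTop (fun m : ℕ => c * m) (fun m z => F (-m) z / F (-m) 1) gs)
    (s2 : SD B hG atTop (fun m : ℕ => c * m)
          (fun m z => c * m * Φ (-m) z * (F (-m) z / F (-m) 1)) (fun x => fr x * gs x)) :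
    SD B hG atTop (fun m : ℕ => c * m)
      (fun m z => (c * m) ^ 2 * Φ (-m) z ^ 2 * (F (-m) z / F (-m) 1))
      (fun x => rp 0 0 (1 / 4) x * gs x) := by
  have t1 : Tendsto (fun m : ℕ => m + 1) atTop atTop := tendsto_add_atTop_nat 1
  -- the level below
  have a1 := SD.comp' s1 t1
  have a2 : SD B hG atTop (fun m : ℕ => c * ((m + 1 : ℕ) : ℝ))
      (fun m z => c * ((m + 1 : ℕ) : ℝ) * Φ (-((m + 1 : ℕ) : ℤ)) z *
        (F (-((m + 1 : ℕ) : ℤ)) z / F (-((m + 1 : ℕ) : ℤ)) 1)) (fun x => rp 0 (-1 / 2) 0 x * gs x) := by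
    refine (SD.comp' s2 t1).congr (fun _ _ => rfl) fun x => ?_
    congr 1
    unfold rp Pool.Agent.N109.T3.fr
    rw [Pool.Agent.N991.MK.nE_sq]
    ring
  have a3 := sq_lim (μ := μ) (fun m : ℕ => hF (-((m + 1 : ℕ) : ℤ))) a1 a2
  have hk : ∀ m : ℕ, -((m + 1 : ℕ) : ℤ) + 1 = -(m : ℤ) := fun m => by push_cast; ring
  -- the fields
  have e1 : ∀ (m : ℕ) (x : G), evo μ (F (-((m + 1 : ℕ) : ℤ)))
      (fun z => c * ((m + 1 : ℕ) : ℝ) * Φ (-((m + 1 : ℕ) : ℤ)) z) 1 x =
        c * ((m + 1 : ℕ) : ℝ) * Φ (-m) x := by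
    intro m x
    have h1 := hΦs (-((m + 1 : ℕ) : ℤ))
    rw [hk] at h1
    rw [h1, evo_smul]
  have e2 : ∀ (m : ℕ) (x : G), TT μ (F (-((m + 1 : ℕ) : ℤ))) x / TT μ (F (-((m + 1 : ℕ) : ℤ))) 1 =
      F (-m) x / F (-m) 1 := by
    intro m x
    have h1 := hFs (-((m + 1 : ℕ) : ℤ))
    rw [hk] at h1
    rw [h1]
    unfold nrm
    have h2 := ((hF (-((m + 1 : ℕ) : ℤ))).TT (μ := μ)).ipos (μ := μ)
    have h3 := ((hF (-((m + 1 : ℕ) : ℤ))).TT (μ := μ)).pos 1
    field_simp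
  -- the change of the scale
  have hr : Tendsto (fun m : ℕ => (m : ℝ) / (m + 1)) atTop (𝓝 1) :=
    tendsto_natCast_div_add_atTop (1 : ℝ)
  have hr' : Tendsto (fun m : ℕ => c * ((m + 1 : ℕ) : ℝ) / (c * m)) atTop (𝓝 1) := by
    have h1 := hr.inv₀ one_ne_zero
    rw [inv_one] at h1
    refine h1.congr fun m => ?_
    push_cast
    rw [inv_div, mul_div_mul_left _ _ hc.ne']
  have a4 := SD.rescale a3 s1.top hr'
  refine (a4.smul (hr.pow 2)).congr (fun m x => ?_) fun x => ?_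
  · rw [e1, e2]
    have : (0 : ℝ) < m + 1 := by positivity
    push_cast
    field_simp
  · unfold rp
    ring

/-- **P3**: the scaling limit of the renormalisation of the square of the field -/
theorem sq_scaling {c : ℝ} (hc : 0 < c) {F Φ : ℤ → G → ℝ}
    (hF : ∀ k, Adm (F k)) (hFs : ∀ k, F (k + 1) = nrm μ (TT μ (F k))) (hΦ : ∀ k, Continuous (Φ k))
    (hcls : ∀ k, Cls (Φ k)) (hΦs : ∀ k, Φ (k + 1) = evo μ (F k) (Φ k) 1)
    (s1 : SD B hG atTop (fun m : ℕ => c * m) (fun m z => F (-m) z / F (-m) 1) gs)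
    (s2 : SD B hG atTop (fun m : ℕ => c * m)
          (fun m z => c * m * Φ (-m) z * (F (-m) z / F (-m) 1)) (fun x => fr x * gs x))
    (J : ℕ) (y : Fin n → ℝ) :
    Tendsto (fun m : ℕ => (c * m) ^ 2 * evo μ (F (-m)) (fun x => Φ (-m) x ^ 2) J
      (em B hG (c * m) y)) atTop
      (𝓝 (((n : ℝ) + 2) * 2 / 5 * (1 - (1 / 16) ^ J) * nE y ^ 2 + (1 / 16) ^ J / 4 * nE y ^ 4)) := by
  have h1 := sq_sd (μ := μ) hc hF hFs hΦs s1 s2
  obtain ⟨h2, h3⟩ := steps_lim (μ := μ) (f := fun m : ℕ => F (-(m : ℤ))) (fun m : ℕ => hF (-m))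
    (q := fun m x => (c * m) ^ 2 * Φ (-m) x ^ 2)
    (fun m => continuous_const.mul ((hΦ _).pow 2)) s1 h1 J
  have h4 := SD.div_lim (f := fun m : ℕ => TTn μ (F (-(m : ℤ))) J)
    (fun m x => ((hF (-(m : ℤ))).TTn (μ := μ) J).pos x) h2 h3 y
  have e : rp 0 (0 + 8 / 5 * ((n : ℝ) + 2) * (1 / 4) * (1 - (1 / 16) ^ J))
      (1 / 4 * (1 / 16) ^ J) y =
      ((n : ℝ) + 2) * 2 / 5 * (1 - (1 / 16) ^ J) * nE y ^ 2 + (1 / 16) ^ J / 4 * nE y ^ 4 := by
    unfold rp
    ring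
  rw [e] at h4
  refine h4.congr fun m => ?_
  rw [evo_smul]

end

end Pool.Agent.N453.T3
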